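import Pool.Agent.H5.FL.Stm

/-!
# Part EXP (crew FL, MP_96872c_an)
-/

set_option autoImplicit false

open MeasureTheory ProbabilityTheory
open scoped NNReal ENNReal

universe u

namespace H1.FL

open H5.FL

/-- the hitting time of a continuous process is `≤ t` iff it is hit up to time `t` -/
theorem hT_le_iff {N : ℕ} {Ω : Type u} (c : ℝ) (m : ℝ≥0 → Ω → Fin N → ℝ) (ω : Ω)
    (hm : Continuous fun t => m t ω) (t : ℝ≥0) :
    hT c m ω ≤ t ↔ ∃ s ≤ t, ∃ j, c ≤ m s ω j := by
  constructor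
  · intro h
    have hcl : IsClosed {s : ℝ≥0 | ∃ j, c ≤ m s ω j} := by
      have : {s : ℝ≥0 | ∃ j, c ≤ m s ω j} = ⋃ j, {s : ℝ≥0 | c ≤ m s ω j} := by
        ext s; simp
      rw [this]
      apply isClosed_iUnion_of_finite
      intro j
      exact isClosed_le continuous_const ((continuous_apply j).comp hm)
    by_contra hcon
    push Not at hcon
    -- a point beyond `t`
    have hne : ∀ s ∈ {s : ℝ≥0 | ∃ j, c ≤ m s ω j}, t < s := by
      rintro s ⟨j, hj⟩
      by_contra hs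
      exact absurd hj (not_le.2 (hcon s (not_lt.1 hs) j))
    have hopen : IsOpen ({s : ℝ≥0 | ∃ j, c ≤ m s ω j}ᶜ) := hcl.isOpen_compl
    have ht : t ∈ ({s : ℝ≥0 | ∃ j, c ≤ m s ω j}ᶜ) := fun h => lt_irrefl _ (hne t h)
    obtain ⟨u, hu1, hu2⟩ := exists_Ico_subset_of_mem_nhds (hopen.mem_nhds ht) ⟨t + 1, by simp⟩
    have : (u : ℝ≥0∞) ≤ hT c m ω := by
      unfold hT
      refine le_iInf₂ ?_
      intro s hs
      rw [ENNReal.coe_le_coe]
      by_contra hsu
      have h1 := hne s hs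
      exact hu2 ⟨h1.le, not_le.1 hsu⟩ hs
    have h2 := this.trans h
    rw [ENNReal.coe_le_coe] at h2
    exact absurd hu1 (not_lt.2 h2)
  · rintro ⟨s, hs, j, hj⟩
    refine le_trans (iInf₂_le s ⟨j, hj⟩) ?_
    exact ENNReal.coe_le_coe.2 hs

theorem measurable_hT {N : ℕ} {Ω : Type u} [MeasurableSpace Ω] (c : ℝ) (m : ℝ≥0 → Ω → Fin N → ℝ)
    (hm : ∀ ω, Continuous fun t => m t ω) (hmm : ∀ t, Measurable (m t)) :
    Measurable (hT c m) := by
  apply measurable_of_Iic
  intro x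
  induction x using ENNReal.recTopCoe with
  | top => simp
  | coe t =>
    have : hT c m ⁻¹' Set.Iic (t : ℝ≥0∞) = ⋂ l : ℕ, ⋃ k : ℕ, ⋃ j : Fin N,
        {ω | c - 1 / ((l : ℝ) + 1) < m (min (TopologicalSpace.denseSeq ℝ≥0 k) t) ω j} := by
      ext ω
      simp only [Set.mem_preimage, Set.mem_Iic, Set.mem_iInter, Set.mem_iUnion, Set.mem_ofPred_eq]
      rw [hT_le_iff c m ω (hm ω)]
      constructor
      · rintro ⟨s, hs, j, hj⟩ l
        have hcont : Continuous fun s' : ℝ≥0 => m (min s' t) ω j :=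
          (continuous_apply j).comp ((hm ω).comp (continuous_id.min continuous_const))
        have hop : IsOpen {s' : ℝ≥0 | c - 1 / ((l : ℝ) + 1) < m (min s' t) ω j} :=
          isOpen_lt continuous_const hcont
        have hmem : s ∈ {s' : ℝ≥0 | c - 1 / ((l : ℝ) + 1) < m (min s' t) ω j} := by
          show c - 1 / ((l : ℝ) + 1) < m (min s t) ω j
          rw [min_eq_left hs]
          have : 0 < 1 / ((l : ℝ) + 1) := by positivity
          linarith
        obtain ⟨k, hk⟩ :=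
          (TopologicalSpace.denseRange_denseSeq ℝ≥0).exists_mem_open hop ⟨s, hmem⟩
        exact ⟨k, j, hk⟩
      · intro h
        rcases Nat.eq_zero_or_pos N with hN | hN
        · subst hN
          obtain ⟨k, j, -⟩ := h 0
          exact j.elim0
        have : Nonempty (Fin N) := ⟨⟨0, hN⟩⟩
        -- the maximum
        have hF : Continuous fun s : ℝ≥0 => Finset.univ.sup' Finset.univ_nonempty (m s ω) := by
          apply Continuous.finset_sup'_apply
          intro j _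
          exact (continuous_apply j).comp (hm ω)
        obtain ⟨s, hs, hmax⟩ := (isCompact_Icc (a := (0 : ℝ≥0)) (b := t)).exists_isMaxOn
          ⟨0, by simp⟩ hF.continuousOn
        have h1 : c ≤ Finset.univ.sup' Finset.univ_nonempty (m s ω) := by
          by_contra hcon
          push Not at hcon
          obtain ⟨l, hl⟩ := exists_nat_one_div_lt (sub_pos.2 hcon)
          obtain ⟨k, j, hkj⟩ := h l
          have h2 : m (min (TopologicalSpace.denseSeq ℝ≥0 k) t) ω j ≤
              Finset.univ.sup' Finset.univ_nonempty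
                (m (min (TopologicalSpace.denseSeq ℝ≥0 k) t) ω) :=
            Finset.le_sup' _ (Finset.mem_univ j)
          have h3 := hmax (show min (TopologicalSpace.denseSeq ℝ≥0 k) t ∈ Set.Icc 0 t from
            ⟨bot_le, min_le_right _ _⟩)
          simp only [Set.mem_ofPred_eq] at h3
          linarith
        obtain ⟨j, -, hj⟩ := Finset.exists_mem_eq_sup' Finset.univ_nonempty (m s ω)
        exact ⟨s, hs.2, j, by rw [← hj]; exact h1⟩
    rw [this]
    refine MeasurableSet.iInter fun l => MeasurableSet.iUnion fun k =>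
      MeasurableSet.iUnion fun j => ?_
    exact measurableSet_lt measurable_const ((measurable_pi_apply j).comp (hmm _))

/-- continuity of `lin` -/
theorem continuous_lin {N : ℕ} (μ : ℝ) : Continuous (lin μ : (Fin N → ℝ) × (Fin N → ℝ) → _) := by
  unfold lin
  fun_prop


/-- abstract form: `F`, `Λ` are functions of a state `y`, `S` the posterior -/
theorem core (hOPT : S_OPT.{u}) {N : ℕ} {Ω : Type u} [mΩ : MeasurableSpace Ω] (P : Measure Ω)
    [IsProbabilityMeasure P] (obs : Filtration ℝ≥0 mΩ)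
    (F : (Fin N → ℝ) × (Fin N → ℝ) → ℝ) (Λ : (Fin N → ℝ) × (Fin N → ℝ) → Fin N → ℝ)
    (y : ℝ≥0 → Ω → (Fin N → ℝ) × (Fin N → ℝ)) (J : ℝ≥0 → Ω → Fin N)
    (m : ℝ≥0 → Ω → Fin N → ℝ) (L c : ℝ)
    (hF : Continuous F) (hΛ : ∀ j, Continuous fun z => Λ z j)
    (hFB : ∀ z, |F z| ≤ L) (hΛB : ∀ z j, |Λ z j| ≤ L)
    (hyc : ∀ ω, Continuous fun t => y t ω) (hya : ∀ t, Measurable[obs t] (y t))
    (hJ : Measurable fun p : ℝ≥0 × Ω => J p.1 p.2)
    (hmc : ∀ ω, Continuous fun t => m t ω) (hma : ∀ t, Measurable[obs t] (m t))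
    (hF0 : ∀ ω, F (y 0 ω) = 1)
    (hobs : ∀ s t : ℝ≥0, s ≤ t → ∀ A, MeasurableSet[obs s] A →
      ∫ ω in A, (F (y t ω) - F (y s ω)) ∂P =
        ∫ ω in A, (∫ r in (s : ℝ)..t, Λ (y r.toNNReal ω) (J r.toNNReal ω)) ∂P) (t : ℝ≥0) :
    Measurable (hT c m) ∧
    Measurable (fun ω => F (y (min (hT c m ω) t).toNNReal ω)) ∧
    ∫ ω, F (y (min (hT c m ω) t).toNNReal ω) ∂P - 1 =
      ∫ ω, (∫ r in (0 : ℝ)..((min (hT c m ω) t).toNNReal : ℝ),
        Λ (y r.toNNReal ω) (J r.toNNReal ω)) ∂P := by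
  have hTm : Measurable (hT c m) :=
    measurable_hT c m hmc (fun t => (hma t).mono (obs.le t) le_rfl)
  have hYj : Measurable (Function.uncurry y) :=
    measurable_uncurry_of_continuous_of_measurable hyc
      (fun t => (hya t).mono (obs.le t) le_rfl)
  refine ⟨hTm, ?_, ?_⟩
  · have h2 : Measurable fun ω => ((min (hT c m ω) (t : ℝ≥0∞)).toNNReal, ω) :=
      ((hTm.min measurable_const).ennreal_toNNReal).prodMk measurable_id
    exact hF.measurable.comp (hYj.comp h2)
  · have hlamm : Measurable fun p : ((Fin N → ℝ) × (Fin N → ℝ)) × Fin N => Λ p.1 p.2 :=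
      measurable_from_prod_countable_left fun j => (hΛ j).measurable
    have hℓ : Measurable (Function.uncurry fun (t : ℝ≥0) ω => Λ (y t ω) (J t ω)) :=
      hlamm.comp (hYj.prodMk hJ)
    have key := hOPT Ω P obs N (fun t ω => F (y t ω)) (fun t ω => Λ (y t ω) (J t ω)) m L c
      (fun ω => hF.comp (hyc ω)) hmc (fun t => hF.measurable.comp (hya t)) hma
      (fun t ω => hFB _) (fun t ω => hΛB _ _) hℓ hobs t
    simp only [hF0] at key
    rw [integral_const] at key
    simp only [probReal_univ, smul_eq_mul, mul_one] at key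
    exact key

theorem t_EXP (hCLK : S_CLK.{u}) (hOBS : S_OBS.{u}) (hOPT : S_OPT.{u}) (hGBD : S_GBD)
    (hTST : S_TST) (hPTC : S_PTC) (hPHD : S_PHD) (hSMD : S_SMD) : S_EXP.{u} := by
  intro N hN ε hε hNε μ δ hδ Ω mΩ P _ π t
  have hq1 : 1 - ε < 1 := by linarith
  have hNr : (2 : ℝ) ≤ N := by exact_mod_cast hN
  obtain ⟨hc1, hc2, hc3, hc4, hc5, hc6⟩ := hCLK N μ Ω P π
  obtain ⟨hs1, hs2, hs3⟩ := hSMD N hN
  obtain ⟨K, hK0, hK⟩ := hGBD N hN (1 - ε) hNε hq1
  obtain ⟨hft, hgen⟩ := hTST N hN (1 - ε) hNε hq1 μ δ hδ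
  have hffc : Continuous (ff N (1 - ε) μ δ) := hft.smooth.continuous
  -- the state
  have hYc : ∀ ω, Continuous fun t => (π.X t ω, clock π.J t ω) := fun ω =>
    (π.X_cont ω).prodMk (hc2 ω)
  have hYm' : ∀ t, Measurable[π.obs t] fun ω => (π.X t ω, clock π.J t ω) := fun t =>
    Measurable.prodMk (π.X_adapted t) (hc1 t)
  -- the posterior
  have hsmc : ∀ i, Continuous (fun ξ : Fin N → ℝ => sm ξ i) := fun i => (hs2 i).continuous
  have hsm' : Continuous (fun y : (Fin N → ℝ) × (Fin N → ℝ) => (sm (lin μ y) : Fin N → ℝ)) :=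
    continuous_pi fun i => (hsmc i).comp (continuous_lin μ)
  have hmc : ∀ ω, Continuous fun t => post μ π.X π.J t ω := by
    intro ω
    have : (fun t => post μ π.X π.J t ω) = fun t =>
        (sm (lin μ (π.X t ω, clock π.J t ω)) : Fin N → ℝ) := by
      funext t
      exact hc6 t ω
    rw [this]
    exact hsm'.comp (hYc ω)
  have hma : ∀ t, Measurable[π.obs t] fun ω => post μ π.X π.J t ω := by
    intro t
    have : (fun ω => post μ π.X π.J t ω) = fun ω =>
        (sm (lin μ (π.X t ω, clock π.J t ω)) : Fin N → ℝ) := by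
      funext ω
      exact hc6 t ω
    rw [this]
    exact hsm'.measurable.comp (hYm' t)
  have hff0 : ∀ y, 0 < ff N (1 - ε) μ δ y := fun y => Real.exp_pos _
  have hffK : ∀ y, ff N (1 - ε) μ δ y ≤ Real.exp (δ * K) := by
    intro y
    unfold ff
    apply Real.exp_le_exp.2
    have h1 := mul_le_mul_of_nonneg_left (hK (lin μ y)).1 hδ.le
    linarith
  set L : ℝ := Real.exp (δ * K) +
    (1 / 2) * μ ^ 2 * Real.exp (δ * K) * (δ ^ 2 * K ^ 2 + δ * K) with hL
  have hlamB : ∀ y j, |lam N (1 - ε) μ δ y j| ≤ L := by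
    intro y j
    unfold lam
    have h1 := ((hK (lin μ y)).2 j).1
    have h2 := ((hK (lin μ y)).2 j).2
    have h3 : |δ ^ 2 * G1 N (1 - ε) (lin μ y) j ^ 2 - δ * BB N (1 - ε) (lin μ y) j| ≤
        δ ^ 2 * K ^ 2 + δ * K := by
      refine (abs_sub _ _).trans ?_
      rw [abs_mul, abs_mul, abs_of_pos hδ, abs_of_pos (pow_pos hδ 2), abs_pow]
      have h4 : |G1 N (1 - ε) (lin μ y) j| ^ 2 ≤ K ^ 2 := pow_le_pow_left₀ (abs_nonneg _) h1 2
      have h5 : δ ^ 2 * |G1 N (1 - ε) (lin μ y) j| ^ 2 ≤ δ ^ 2 * K ^ 2 :=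
        mul_le_mul_of_nonneg_left h4 (by positivity)
      have h6 : δ * |BB N (1 - ε) (lin μ y) j| ≤ δ * K := mul_le_mul_of_nonneg_left h2 hδ.le
      linarith
    rw [abs_mul, abs_mul, abs_mul, abs_of_pos (hff0 y), abs_of_nonneg (sq_nonneg μ),
      abs_of_pos (by norm_num : (0 : ℝ) < 1 / 2)]
    have h7 : (1 / 2) * μ ^ 2 * ff N (1 - ε) μ δ y *
        |δ ^ 2 * G1 N (1 - ε) (lin μ y) j ^ 2 - δ * BB N (1 - ε) (lin μ y) j| ≤
        (1 / 2) * μ ^ 2 * Real.exp (δ * K) * (δ ^ 2 * K ^ 2 + δ * K) := by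
      apply mul_le_mul _ h3 (abs_nonneg _) (by positivity)
      exact mul_le_mul_of_nonneg_left (hffK y) (by positivity)
    rw [hL]
    linarith [Real.exp_pos (δ * K)]
  have hffB : ∀ y, |ff N (1 - ε) μ δ y| ≤ L := by
    intro y
    rw [abs_of_pos (hff0 y), hL]
    have h1 := hffK y
    have h2 : 0 ≤ (1 / 2) * μ ^ 2 * Real.exp (δ * K) * (δ ^ 2 * K ^ 2 + δ * K) := by positivity
    linarith
  -- continuity of G1, BB
  have hphi1 : ∀ i, Continuous fun ξ : Fin N → ℝ => phi1 (N : ℝ) (1 - ε) (sm ξ i) := by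
    intro i
    rw [continuous_iff_continuousAt]
    intro ξ
    have h1 := (hPHD N (1 - ε) hNr hq1 (sm ξ i) ((hs1 ξ).1 i).1).2.continuousAt
    exact ContinuousAt.comp (f := fun ξ : Fin N → ℝ => sm ξ i) h1 (hsmc i).continuousAt
  have hG1 : ∀ j, Continuous fun ξ : Fin N → ℝ => G1 N (1 - ε) ξ j := by
    intro j
    unfold G1
    exact (hsmc j).mul ((hphi1 j).sub (continuous_finsetSum _ fun i _ =>
      (hsmc i).mul (hphi1 i)))
  have hpsi : ∀ i, Continuous fun ξ : Fin N → ℝ => psiT (N : ℝ) (1 - ε) (sm ξ i) := fun i =>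
    (hPTC N (1 - ε) hNr hq1).1.comp (hsmc i)
  have hBB : ∀ j, Continuous fun ξ : Fin N → ℝ => BB N (1 - ε) ξ j := by
    intro j
    unfold BB
    exact (((continuous_const.sub (hsmc j)).pow 2).mul (hpsi j)).add
      (((hsmc j).pow 2).mul (continuous_finsetSum _ fun i _ => hpsi i))
  have hlamc : ∀ j, Continuous fun y => lam N (1 - ε) μ δ y j := by
    intro j
    unfold lam
    exact (continuous_const.mul hffc).mul
      ((continuous_const.mul (((hG1 j).comp (continuous_lin μ)).pow 2)).sub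
        (continuous_const.mul ((hBB j).comp (continuous_lin μ))))
  have h0 : ∀ ω, ff N (1 - ε) μ δ (π.X 0 ω, clock π.J 0 ω) = 1 := by
    intro ω
    have e1 : lin μ (π.X 0 ω, clock π.J 0 ω) = 0 := by
      funext j
      simp only [lin, Pi.zero_apply]
      rw [π.X_zero, hc3]
      ring
    unfold ff GG
    rw [e1]
    have e2 : ∀ i : Fin N, sm (0 : Fin N → ℝ) i = 1 / (N : ℝ) := by
      intro i
      simp [sm]
    simp only [e2]
    have e3 : phi (N : ℝ) (1 - ε) (1 / (N : ℝ)) = 0 := by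
      unfold phi
      exact intervalIntegral.integral_same
    rw [e3]
    simp
  exact core hOPT P π.obs (ff N (1 - ε) μ δ) (lam N (1 - ε) μ δ)
    (fun t ω => (π.X t ω, clock π.J t ω)) π.J (fun t ω => post μ π.X π.J t ω) L (1 - ε)
    hffc hlamc hffB hlamB hYc hYm' hc4 hmc hma h0
    (fun s t hst A hA => hOBS N hN (1 - ε) hNε hq1 μ δ hδ Ω P π s t hst A hA) t

end H1.FL
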